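import Pool.Agent.V5helper41.PD.Stm
import Pool.Agent.R976.UG.Bounds

/-!
# Project PD, job SMU: Smyth's bound for nonreciprocal units, in terms of the height
-/

set_option autoImplicit false

namespace V5helper81.PD

open IntermediateField Polynomial NumberField
open Pool.Agent.H58P (Qb)
open Pool.Agent.TH53.UG (conjs mem_conjs MM_prod)
open Pool.Agent.R976.UG (nonrecip)
open Pool.Agent.W963.GE
open V5helper41.PD (S_SMU)

theorem infinite_prod {K : Type*} [Field K] [NumberField K] (f : InfinitePlace K → ℝ) :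
    ∏ φ : K →+* ℂ, f (InfinitePlace.mk φ) = ∏ v, f v ^ v.mult := by
  classical
  rw [← Finset.prod_fiberwise (s := Finset.univ) (g := InfinitePlace.mk)]
  refine Finset.prod_congr rfl fun v _ => ?_
  rw [Finset.prod_congr rfl (g := fun _ => f v), Finset.prod_const, InfinitePlace.card_filter_mk_eq]
  intro φ hφ
  rw [(Finset.mem_filter.1 hφ).2]

theorem height_ge {K : Type*} [Field K] [NumberField K] (x : K) :
    ∏ φ : K →+* ℂ, max 1 ‖φ x‖ ≤ Height.mulHeight₁ x := by
  rw [NumberField.mulHeight₁_eq]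
  have h1 : ∏ φ : K →+* ℂ, max 1 ‖φ x‖ = ∏ v : InfinitePlace K, max (v x) 1 ^ v.mult := by
    rw [← infinite_prod (fun v : InfinitePlace K => max (v x) 1)]
    refine Finset.prod_congr rfl fun φ _ => ?_
    rw [max_comm, InfinitePlace.apply]
  rw [h1]
  refine le_mul_of_one_le_right (Finset.prod_nonneg fun v _ => by positivity) ?_
  exact finprod_induction (p := fun y : ℝ => 1 ≤ y) le_rfl
    (fun a b ha hb => one_le_mul_of_one_le_of_one_le ha hb) fun v => le_max_right _ _

theorem main {L : Type*} [Field L] [CharZero L] (α : L) (hα : IsIntegral ℚ α) (x : ℂ)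
    (hx : IsIntegral ℤ x) (hmin : minpoly ℚ x = minpoly ℚ α) :
    Real.log (MM x) ≤ (minpoly ℚ α).natDegree * NumberField.absLogHeight₁ α := by
  classical
  unfold NumberField.absLogHeight₁ NumberField.absMulHeight₁
  rw [dif_pos hα]
  haveI : FiniteDimensional ℚ ℚ⟮α⟯ := adjoin.finiteDimensional hα
  haveI : NumberField ℚ⟮α⟯ := {}
  have hpos : 0 < Height.mulHeight₁ (AdjoinSimple.gen ℚ α) := Height.mulHeight₁_pos _
  have hd : (Module.finrank ℚ ℚ⟮α⟯) = (minpoly ℚ α).natDegree := IntermediateField.adjoin.finrank hα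
  have hd0 : (0 : ℝ) < (minpoly ℚ α).natDegree := by exact_mod_cast minpoly.natDegree_pos hα
  rw [Real.log_rpow hpos, hd, ← mul_assoc, mul_inv_cancel₀ hd0.ne', one_mul]
  have hge : MM x ≤ Height.mulHeight₁ (AdjoinSimple.gen ℚ α) := by
    rw [MM_prod hx]
    refine le_trans ?_ (height_ge (AdjoinSimple.gen ℚ α))
    have hex : ∀ a : ℂ, ∃ φ : ℚ⟮α⟯ →+* ℂ, a ∈ conjs x → φ (AdjoinSimple.gen ℚ α) = a := by
      intro a
      by_cases ha : a ∈ conjs x
      · have h1 : aeval a (minpoly ℤ x) = 0 := (mem_conjs hx).1 ha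
        have h2 : a ∈ (minpoly ℚ (AdjoinSimple.gen ℚ α)).rootSet ℂ := by
          rw [mem_rootSet]
          refine ⟨minpoly.ne_zero_of_finite ℚ _, ?_⟩
          have hgen : minpoly ℚ (AdjoinSimple.gen ℚ α) = minpoly ℚ α := by
            have h := minpoly.algHom_eq (RingHom.toRatAlgHom (algebraMap ℚ⟮α⟯ L))
              (algebraMap ℚ⟮α⟯ L).injective (AdjoinSimple.gen ℚ α)
            rw [← h]
            rfl
          rw [hgen, ← hmin,
            minpoly.isIntegrallyClosed_eq_field_fractions' ℚ hx, aeval_map_algebraMap]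
          exact h1
        rw [← NumberField.Embeddings.range_eval_eq_rootSet_minpoly] at h2
        obtain ⟨φ, hφ⟩ := h2
        exact ⟨φ, fun _ => hφ⟩
      · exact ⟨Classical.arbitrary _, fun h => absurd h ha⟩
    choose g hg using hex
    have h3 : ∏ a ∈ conjs x, max 1 ‖a‖ =
        ∏ φ ∈ (conjs x).image g, max 1 ‖φ (AdjoinSimple.gen ℚ α)‖ := by
      rw [Finset.prod_image]
      · exact Finset.prod_congr rfl fun a ha => by rw [hg a ha]
      · intro a ha b hb hab
        rw [← hg a ha, ← hg b hb, hab]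
    rw [h3]
    rw [← Finset.prod_sdiff (Finset.subset_univ ((conjs x).image g))]
    refine le_mul_of_one_le_left (Finset.prod_nonneg fun _ _ => by positivity) ?_
    calc (1 : ℝ) = ∏ _φ ∈ Finset.univ \ (conjs x).image g, (1 : ℝ) := by
          rw [Finset.prod_const_one]
      _ ≤ _ := Finset.prod_le_prod (fun _ _ => zero_le_one) fun _ _ => le_max_left _ _
  have h0 : 0 < MM x := by
    rw [MM_prod hx]
    exact Finset.prod_pos fun a _ => by positivity
  exact Real.log_le_log h0 hge

theorem t_SMU : S_SMU := by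
  intro α h0 hint hinv hnr
  haveI halg : Algebra.IsAlgebraic ℚ Qb := AlgebraicClosure.isAlgebraic ℚ
  let φ : Qb →ₐ[ℚ] ℂ := IsAlgClosed.lift
  have hφi : Function.Injective φ := φ.toRingHom.injective
  have hx : IsIntegral ℤ (φ α) := hint.map (φ.restrictScalars ℤ)
  have hx' : IsIntegral ℤ (φ α)⁻¹ := by
    rw [← map_inv₀]
    exact hinv.map (φ.restrictScalars ℤ)
  have hmin : minpoly ℚ (φ α) = minpoly ℚ α := minpoly.algHom_eq φ hφi α
  have hx0 : φ α ≠ 0 := fun h => h0 (hφi (h.trans (map_zero φ).symm))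
  have hnr' : aeval (φ α)⁻¹ (minpoly ℤ (φ α)) ≠ 0 := by
    intro h
    apply hnr
    apply hφi
    rw [map_zero, ← Polynomial.aeval_algHom_apply, map_inv₀, ← hmin,
      minpoly.isIntegrallyClosed_eq_field_fractions' ℚ hx, aeval_map_algebraMap]
    exact h
  have h1 := nonrecip hx hx0 hx' hnr'
  have h2 : Real.log 1.28 ≤ Real.log (MM (φ α)) := Real.log_le_log (by norm_num) h1
  refine h2.trans ?_
  have hi : IsIntegral ℚ α := (halg.isAlgebraic α).isIntegral
  exact main α hi (φ α) hx hmin

end V5helper81.PD
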